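import Pool.Agent.Q22.CG.Asm

/-!
# MP_216434_al: characteristic versus normal subgroup growth for groups with finite Out

There is a finitely generated group `Γ` with `Out(Γ)` finite such that no function `f` is a growth
type of both the characteristic and the normal subgroup growth of `Γ` (negative answer to Q1).

Construction. `G = V ⋊ EL_3(R)` for a finitely generated subring `R` of the product of the matrix
rings `M_{3^i}(F_{p_i})`, with rapidly growing primes `p_i ≡ 2 mod 3`; its normal subgroups of finite
index are those of the product of the finite groups `F_{p_i}^{2N} ⋊ SL_N(p_i)`, `N = 3^{i+1}`, and an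
automorphism `α` of order three acts without invariant lines on the `F_{p_i}^2`. `K` is `G` modulo
the elements of finite support; it has no subgroups of finite index. For a generic subset `U` of
`P = G × K` the group `Γ` of pairs `(f, p)`, `p ∈ P`, `f : P → A_5` measurable for the Boolean algebra
generated by the finite sets and the left translates of `U`, has finite outer automorphism group.
-/

namespace Pool.Agent.Results.MP_216434_al.FiniteOutGrowthTypes

open scoped NNReal

/-- `s_n^{◁}(Γ)`: the number of normal subgroups of finite index at most `n` -/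
noncomputable def normalGrowth (Γ : Type) [Group Γ] (n : ℕ) : ℕ :=
  Nat.card {N : Subgroup Γ // N.Normal ∧ N.index ≠ 0 ∧ N.index ≤ n}

/-- `s_n^{ch}(Γ)`: the number of characteristic subgroups of finite index at most `n` -/
noncomputable def characteristicGrowth (Γ : Type) [Group Γ] (n : ℕ) : ℕ :=
  Nat.card {N : Subgroup Γ // N.Characteristic ∧ N.index ≠ 0 ∧ N.index ≤ n}

/-- `g` has growth type `f`: `g n ≤ (f n)^a` for all `n ≥ 1` and `g n ≥ (f n)^b` for infinitely
many `n`, for some constants `a, b > 0` -/
def HasGrowthType (g : ℕ → ℕ) (f : ℕ → ℝ≥0) : Prop :=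
  (∃ a : ℝ, 0 < a ∧ ∀ n, 1 ≤ n → (g n : ℝ) ≤ (f n : ℝ) ^ a) ∧
    ∃ b : ℝ, 0 < b ∧ ∃ᶠ n in Filter.atTop, (f n : ℝ) ^ b ≤ (g n : ℝ)

/-- `Out(Γ) = Aut(Γ)/Inn(Γ)` -/
abbrev Out (Γ : Type) [Group Γ] : Type := MulAut Γ ⧸ (MulAut.conj : Γ →* MulAut Γ).range

/-- There is a finitely generated group `Γ` with finite `Out(Γ)` for which no function `f` is a
growth type of both the characteristic and the normal subgroup growth. -/
theorem result : ∃ (Γ : Type) (_ : Group Γ), Group.FG Γ ∧ Finite (Out Γ) ∧
    ¬ ∃ f : ℕ → ℝ≥0, HasGrowthType (characteristicGrowth Γ) f ∧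
      HasGrowthType (normalGrowth Γ) f :=
  Pool.Agent.Q22.CG.main

end Pool.Agent.Results.MP_216434_al.FiniteOutGrowthTypes
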